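import Pool.Agent.H17.AH.TargetsX

/-!
# MP_70ba79_ag: the equations of the conics (row XPCH of the board `ahy_modules`)
-/

set_option autoImplicit false

namespace Pool.Agent.H49.AH

open MvPolynomial SC Pool.Agent.H27.LV Pool.Agent.H17.VG
open Pool.Agent.H30.VM Pool.Agent.H17.BO Pool.Agent.H17.AH

theorem pf_XPCH : T_XPCH := by
  classical
  intro k _ n F s
  obtain ⟨xh, hxh⟩ : ∃ xh : Fin (n + 1) →
      MvPolynomial (Fin n ⊕ ((Fin (n + 1) ⊕ Fin (n + 1)) ⊕ Unit)) k,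
      xh = Fin.cons 1 fun j => X (Sum.inl j) := ⟨_, rfl⟩
  obtain ⟨bh, hbh⟩ : ∃ bh : Fin (n + 1) →
      MvPolynomial (Fin n ⊕ ((Fin (n + 1) ⊕ Fin (n + 1)) ⊕ Unit)) k,
      bh = fun l => X (Sum.inr (Sum.inl (Sum.inl l))) := ⟨_, rfl⟩
  obtain ⟨eh, heh⟩ : ∃ eh : Fin (n + 1) →
      MvPolynomial (Fin n ⊕ ((Fin (n + 1) ⊕ Fin (n + 1)) ⊕ Unit)) k,
      eh = fun l => X (Sum.inr (Sum.inl (Sum.inr l))) := ⟨_, rfl⟩
  obtain ⟨zh, hzh⟩ : ∃ zh : MvPolynomial (Fin n ⊕ ((Fin (n + 1) ⊕ Fin (n + 1)) ⊕ Unit)) k,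
      zh = X (Sum.inr (Sum.inr ())) := ⟨_, rfl⟩
  obtain ⟨P, hP⟩ : ∃ P : Polynomial
      (MvPolynomial (Fin n ⊕ ((Fin (n + 1) ⊕ Fin (n + 1)) ⊕ Unit)) k),
      P = aeval (fun j => Polynomial.C (xh j) + Polynomial.C (bh j) * Polynomial.X +
        Polynomial.C (eh j) * Polynomial.X ^ 2) F := ⟨_, rfl⟩
  obtain ⟨Dt, hDt⟩ : ∃ Dt : MvPolynomial (Fin n ⊕ ((Fin (n + 1) ⊕ Fin (n + 1)) ⊕ Unit)) k,
      Dt = (Matrix.of fun u v : Fin 3 => (![xh, bh, eh] : Fin 3 → Fin (n + 1) → _) u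
        (s v)).det := ⟨_, rfl⟩
  refine ⟨{Dt * zh - 1} ∪ {f | ∃ m, f = P.coeff m}, ?_⟩
  intro K _ _ x b c' z
  obtain ⟨φ, hφ⟩ : ∃ φ : MvPolynomial (Fin n ⊕ ((Fin (n + 1) ⊕ Fin (n + 1)) ⊕ Unit)) k →ₐ[k] K,
      φ = aeval (Sum.elim x (Sum.elim (Sum.elim b c') fun _ => z)) := ⟨_, rfl⟩
  rw [← hφ]
  have h2 : ∀ j, φ (xh j) = (Fin.cons 1 x : Fin (n + 1) → K) j := by
    intro j
    rw [hxh, hφ]
    refine Fin.cases ?_ (fun i => ?_) j
    · simp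
    · simp
  have h3 : ∀ l, φ (bh l) = b l := by
    intro l
    rw [hφ, hbh]
    simp
  have h4 : ∀ l, φ (eh l) = c' l := by
    intro l
    rw [hφ, heh]
    simp
  have h5 : φ zh = z := by
    rw [hφ, hzh]
    simp
  have hmap : P.map (φ : MvPolynomial (Fin n ⊕ ((Fin (n + 1) ⊕ Fin (n + 1)) ⊕ Unit)) k →+* K) =
      res2 (Fin.cons 1 x : Fin (n + 1) → K) b c' (up K F) := by
    have h1 : P.map (φ : MvPolynomial (Fin n ⊕ ((Fin (n + 1) ⊕ Fin (n + 1)) ⊕ Unit)) k →+* K) =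
        Polynomial.mapAlgHom φ P := rfl
    rw [h1, hP, MvPolynomial.comp_aeval_apply]
    unfold res2 up
    rw [MvPolynomial.aeval_map_algebraMap]
    congr 2
    funext j
    rw [map_add, map_add, map_mul, map_mul, map_pow]
    simp only [Polynomial.coe_mapAlgHom, Polynomial.map_C, Polynomial.map_X]
    rw [← h2 j, ← h3 j, ← h4 j]
    rfl
  have hDm : φ Dt = (Matrix.of fun u v : Fin 3 => (![(Fin.cons 1 x : Fin (n + 1) → K), b, c'] :
      Fin 3 → Fin (n + 1) → K) u (s v)).det := by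
    rw [hDt, AlgHom.map_det]
    congr 1
    ext u v
    rw [AlgHom.mapMatrix_apply, Matrix.map_apply, Matrix.of_apply, Matrix.of_apply]
    fin_cases u
    · exact h2 _
    · exact h3 _
    · exact h4 _
  constructor
  · intro h
    refine ⟨?_, ?_⟩
    · have e1 := h _ (Or.inl rfl)
      rw [map_sub, map_one, map_mul, hDm, h5] at e1
      exact sub_eq_zero.1 e1
    · rw [← hmap]
      ext m
      rw [Polynomial.coeff_zero, Polynomial.coeff_map]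
      exact h _ (Or.inr ⟨m, rfl⟩)
  · rintro ⟨e1, e2⟩ f (rfl | ⟨m, rfl⟩)
    · rw [map_sub, map_one, map_mul, hDm, h5, e1, sub_self]
    · have e5 := congrArg (fun p => Polynomial.coeff p m) (hmap.trans e2)
      simp only [Polynomial.coeff_map, Polynomial.coeff_zero] at e5
      exact e5

end Pool.Agent.H49.AH
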